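import Mathlib

/-!
# No bound `C n / t` for the probability that a hitting time falls in `[t, t + n]`
-/

open Finset

namespace Pool.Agent.Results.MP_eadfc1_pr.WindowBoundFails

/-- `P_x(τ(y) = t)` for the chain with transition matrix `P`: the sum, over all trajectories
`w₀, …, w_t` with `w₀ = x`, `w_t = y` and `w_s ≠ y` for `s < t`, of the product of the
transition probabilities along the trajectory. -/
noncomputable def hitProb {S : Type} [Fintype S] [DecidableEq S] (P : S → S → ℝ) (x y : S)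
    (t : ℕ) : ℝ :=
  ∑ w : Fin (t + 1) → S,
    if w 0 = x ∧ w (Fin.last t) = y ∧ ∀ s : Fin t, w s.castSucc ≠ y then
      ∏ s : Fin t, P (w s.castSucc) (w s.succ) else 0

/-- `P_x(a ≤ τ(y) ≤ b)`. -/
noncomputable def windowProb {S : Type} [Fintype S] [DecidableEq S] (P : S → S → ℝ) (x y : S)
    (a b : ℕ) : ℝ := ∑ t ∈ Finset.Icc a b, hitProb P x y t

/-- `P` is a transition matrix. -/
structure IsTransition {S : Type} [Fintype S] (P : S → S → ℝ) : Prop where
  nonneg : ∀ u v, 0 ≤ P u v
  row_sum : ∀ u, ∑ v, P u v = 1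

section recursion

variable {S : Type} [Fintype S] [DecidableEq S] (P : S → S → ℝ)

lemma hitProb_zero (x y : S) : hitProb P x y 0 = if x = y then 1 else 0 := by
  unfold hitProb
  rw [← (Equiv.funUnique (Fin 1) S).symm.sum_comp]
  simp only [Finset.univ_eq_empty, Finset.prod_empty]
  have : ∀ a : S, ((Equiv.funUnique (Fin 1) S).symm a 0 = x ∧
      (Equiv.funUnique (Fin 1) S).symm a (Fin.last 0) = y ∧
      ∀ s : Fin 0, (Equiv.funUnique (Fin 1) S).symm a s.castSucc ≠ y) ↔ (a = x ∧ x = y) := by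
    intro a
    constructor
    · rintro ⟨h1, h2, -⟩
      exact ⟨h1, h1.symm.trans h2⟩
    · rintro ⟨h1, h2⟩
      exact ⟨h1, h1.trans h2, fun s => s.elim0⟩
  simp only [this]
  by_cases h : x = y
  · simp [h]
  · simp [h]

lemma hitProb_succ (x y : S) (t : ℕ) :
    hitProb P x y (t + 1) = if x = y then 0 else ∑ z, P x z * hitProb P z y t := by
  unfold hitProb
  rw [← (Fin.consEquiv (fun _ : Fin (t + 2) => S)).sum_comp, Fintype.sum_prod_type]
  have hkey : ∀ (a : S) (w : Fin (t + 1) → S),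
      (if ((Fin.consEquiv (fun _ : Fin (t + 2) => S)) (a, w)) 0 = x ∧
          ((Fin.consEquiv (fun _ : Fin (t + 2) => S)) (a, w)) (Fin.last (t + 1)) = y ∧
          ∀ s : Fin (t + 1), ((Fin.consEquiv (fun _ : Fin (t + 2) => S)) (a, w)) s.castSucc ≠ y
        then ∏ s : Fin (t + 1), P (((Fin.consEquiv (fun _ : Fin (t + 2) => S)) (a, w)) s.castSucc)
          (((Fin.consEquiv (fun _ : Fin (t + 2) => S)) (a, w)) s.succ) else 0)
      = if a = x then (if x = y then 0 else
          (if w (Fin.last t) = y ∧ ∀ s : Fin t, w s.castSucc ≠ y then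
            P x (w 0) * ∏ s : Fin t, P (w s.castSucc) (w s.succ) else 0)) else 0 := by
    intro a w
    have e0 : ((Fin.consEquiv (fun _ : Fin (t + 2) => S)) (a, w)) 0 = a := rfl
    have es : ∀ s : Fin (t + 1),
        ((Fin.consEquiv (fun _ : Fin (t + 2) => S)) (a, w)) s.succ = w s := fun s => rfl
    have el : ((Fin.consEquiv (fun _ : Fin (t + 2) => S)) (a, w)) (Fin.last (t + 1))
        = w (Fin.last t) := rfl
    have ec : ∀ s : Fin t,
        ((Fin.consEquiv (fun _ : Fin (t + 2) => S)) (a, w)) (s.succ.castSucc) = w s.castSucc :=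
      fun s => rfl
    have ec0 : ((Fin.consEquiv (fun _ : Fin (t + 2) => S)) (a, w)) ((0 : Fin (t + 1)).castSucc)
        = a := rfl
    simp only [Fin.forall_fin_succ, Fin.prod_univ_succ, e0, es, el, ec, ec0]
    by_cases h1 : a = x
    · subst h1
      by_cases h2 : a = y
      · simp [h2]
      · simp [h2]
    · simp [h1]
  simp only [hkey]
  simp only [Finset.sum_ite_eq', Finset.mem_univ, if_true, Finset.sum_ite_irrel,
    Finset.sum_const_zero]
  by_cases h2 : x = y
  · simp [h2]
  · simp only [h2, if_false]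
    simp only [Finset.mul_sum]
    rw [Finset.sum_comm]
    refine Finset.sum_congr rfl fun w _ => ?_
    by_cases h3 : w (Fin.last t) = y ∧ ∀ s : Fin t, w s.castSucc ≠ y
    · rw [if_pos h3]
      rw [Finset.sum_eq_single (w 0)]
      · rw [if_pos ⟨rfl, h3⟩]
      · intro b _ hb
        rw [if_neg (fun h => hb h.1.symm), mul_zero]
      · intro h; exact absurd (Finset.mem_univ _) h
    · rw [if_neg h3]
      symm
      apply Finset.sum_eq_zero
      intro b _
      rw [if_neg (fun h => h3 h.2), mul_zero]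

end recursion

/-- pure birth chain on `0, …, M` with success probability `p`, absorbed at `M`. -/
noncomputable def bP (M : ℕ) (p : ℝ) (i j : Fin (M + 1)) : ℝ :=
  if (i : ℕ) < M then
    (if (j : ℕ) = i + 1 then p else 0) + (if (j : ℕ) = i then 1 - p else 0)
  else if (j : ℕ) = i then 1 else 0

/-- probability of being at `M` after `s` steps. -/
noncomputable def U (M : ℕ) (p : ℝ) : ℕ → ℕ → ℝ
  | 0, i => if i < M then 0 else 1
  | s + 1, i => if i < M then p * U M p s (i + 1) + (1 - p) * U M p s i else U M p s i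

lemma bP_sum (M : ℕ) (p : ℝ) (i : Fin (M + 1)) (g : ℕ → ℝ) :
    ∑ j : Fin (M + 1), bP M p i j * g j
      = if (i : ℕ) < M then p * g (i + 1) + (1 - p) * g i else g i := by
  unfold bP
  split_ifs with h
  · simp only [add_mul, ite_mul, zero_mul, Finset.sum_add_distrib]
    congr 1
    · rw [← Finset.sum_range (fun j => if j = (i : ℕ) + 1 then p * g j else 0)]
      rw [Finset.sum_ite_eq', if_pos (Finset.mem_range.mpr (by omega))]
    · rw [← Finset.sum_range (fun j => if j = (i : ℕ) then (1 - p) * g j else 0)]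
      rw [Finset.sum_ite_eq', if_pos (Finset.mem_range.mpr (by omega))]
  · simp only [ite_mul, zero_mul, one_mul]
    rw [← Finset.sum_range (fun j => if j = (i : ℕ) then g j else 0)]
    rw [Finset.sum_ite_eq', if_pos (Finset.mem_range.mpr (by omega))]

lemma U_top (M : ℕ) (p : ℝ) (s i : ℕ) (hi : ¬ i < M) : U M p s i = 1 := by
  induction s with
  | zero => simp [U, hi]
  | succ s ih => simp [U, hi, ih]

lemma hit_eq (M : ℕ) (p : ℝ) (s : ℕ) (i : Fin (M + 1)) :
    hitProb (bP M p) i (Fin.last M) (s + 1) = U M p (s + 1) i - U M p s i := by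
  induction s generalizing i with
  | zero =>
    rw [hitProb_succ]
    by_cases h : i = Fin.last M
    · rw [if_pos h]
      have : ¬ ((i : ℕ) < M) := by rw [h]; simp
      rw [U_top M p _ _ this, U_top M p _ _ this, sub_self]
    · rw [if_neg h]
      have hi : (i : ℕ) < M := by
        have := i.2
        have h' : (i : ℕ) ≠ M := fun h' => h (Fin.ext h')
        omega
      simp only [hitProb_zero]
      have : ∀ z : Fin (M + 1), (if z = Fin.last M then (1 : ℝ) else 0)
          = U M p 0 (z : ℕ) := by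
        intro z
        by_cases hz : z = Fin.last M
        · rw [if_pos hz, U_top M p 0 _ (by rw [hz]; simp)]
        · have hz' : (z : ℕ) < M := by
            have := z.2
            have h' : (z : ℕ) ≠ M := fun h' => hz (Fin.ext h')
            omega
          rw [if_neg hz]
          simp [U, hz']
      simp only [this]
      rw [bP_sum M p i (U M p 0)]
      simp [U, hi]
  | succ s ih =>
    rw [hitProb_succ]
    by_cases h : i = Fin.last M
    · rw [if_pos h]
      have : ¬ ((i : ℕ) < M) := by rw [h]; simp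
      rw [U_top M p _ _ this, U_top M p _ _ this, sub_self]
    · rw [if_neg h]
      have hi : (i : ℕ) < M := by
        have := i.2
        have h' : (i : ℕ) ≠ M := fun h' => h (Fin.ext h')
        omega
      simp only [ih]
      rw [bP_sum M p i (fun j => U M p (s + 1) j - U M p s j), if_pos hi]
      have e1 : U M p (s + 1 + 1) i = p * U M p (s + 1) (i + 1) + (1 - p) * U M p (s + 1) i := by
        rw [U]; simp [hi]
      have e2 : U M p (s + 1) i = p * U M p s (i + 1) + (1 - p) * U M p s i := by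
        rw [U]; simp [hi]
      rw [e1]
      conv_rhs => rw [e2]
      rw [e2]
      ring

lemma window_eq (M : ℕ) (p : ℝ) (i : Fin (M + 1)) (a b : ℕ) (ha : 1 ≤ a) (hab : a ≤ b) :
    windowProb (bP M p) i (Fin.last M) a b = U M p b i - U M p (a - 1) i := by
  obtain ⟨a', rfl⟩ : ∃ a', a = a' + 1 := ⟨a - 1, by omega⟩
  obtain ⟨d, rfl⟩ : ∃ d, b = a' + 1 + d := ⟨b - (a' + 1), by omega⟩
  simp only [Nat.add_sub_cancel]
  unfold windowProb
  induction d with
  | zero => simp [hit_eq]
  | succ d ih =>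
    have : a' + 1 + (d + 1) = (a' + 1 + d) + 1 := by ring
    rw [this, Finset.sum_Icc_succ_top (by omega), ih (by omega), hit_eq]
    ring

/-- `1 - U ≤ ((s p + i - c)² + s p (1-p)) / δ²` when `c - i ≥ δ` for all `i ≤ M - 1`. -/
lemma U_lower (M : ℕ) (p : ℝ) (hp0 : 0 ≤ p) (hp1 : p ≤ 1) (δ c : ℝ) (hδ : 0 < δ)
    (hc : (M : ℝ) - 1 + δ ≤ c) (s i : ℕ) :
    1 - U M p s i ≤ (((s : ℝ) * p + i - c) ^ 2 + (s : ℝ) * p * (1 - p)) / δ ^ 2 := by
  have hδ2 : 0 < δ ^ 2 := by positivity
  have hq : 0 ≤ 1 - p := by linarith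
  by_cases hi : i < M
  · induction s generalizing i with
    | zero =>
      have : U M p 0 i = 0 := by simp [U, hi]
      rw [this, le_div_iff₀ hδ2]
      have hiM : (i : ℝ) ≤ M - 1 := by
        have : (i : ℝ) + 1 ≤ M := by exact_mod_cast hi
        linarith
      push_cast
      nlinarith
    | succ s ih =>
      have e : U M p (s + 1) i = p * U M p s (i + 1) + (1 - p) * U M p s i := by
        rw [U]; simp [hi]
      rw [e]
      have h1 := ih i hi
      have h2 : 1 - U M p s (i + 1)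
          ≤ (((s : ℝ) * p + ((i + 1 : ℕ) : ℝ) - c) ^ 2 + (s : ℝ) * p * (1 - p)) / δ ^ 2 := by
        by_cases hi' : i + 1 < M
        · exact ih (i + 1) hi'
        · rw [U_top M p s _ hi', sub_self]
          positivity
      rw [le_div_iff₀ hδ2] at h1 h2 ⊢
      push_cast at h1 h2 ⊢
      nlinarith [mul_le_mul_of_nonneg_left h1 hq, mul_le_mul_of_nonneg_left h2 hp0]
  · rw [U_top M p s i hi, sub_self]
    positivity

/-- `U ≤ ((s p + i - c)² + s p (1-p)) / δ²` when `c ≤ M - δ`. -/
lemma U_upper (M : ℕ) (p : ℝ) (hp0 : 0 ≤ p) (hp1 : p ≤ 1) (δ c : ℝ) (hδ : 0 < δ)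
    (hc : c ≤ (M : ℝ) - δ) (s i : ℕ) :
    U M p s i ≤ (((s : ℝ) * p + i - c) ^ 2 + (s : ℝ) * p * (1 - p)) / δ ^ 2 := by
  have hδ2 : 0 < δ ^ 2 := by positivity
  have hq : 0 ≤ 1 - p := by linarith
  have htop : ∀ s i : ℕ, ¬ i < M →
      U M p s i ≤ (((s : ℝ) * p + i - c) ^ 2 + (s : ℝ) * p * (1 - p)) / δ ^ 2 := by
    intro s i hi
    rw [U_top M p s i hi, le_div_iff₀ hδ2, one_mul]
    have h1 : (M : ℝ) ≤ i := by exact_mod_cast (not_lt.mp hi)
    have h2 : 0 ≤ (s : ℝ) * p := by positivity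
    have h3 : 0 ≤ (s : ℝ) * p * (1 - p) := by positivity
    nlinarith
  induction s generalizing i with
  | zero =>
    by_cases hi : i < M
    · have : U M p 0 i = 0 := by simp [U, hi]
      rw [this]
      positivity
    · exact htop 0 i hi
  | succ s ih =>
    by_cases hi : i < M
    · have e : U M p (s + 1) i = p * U M p s (i + 1) + (1 - p) * U M p s i := by
        rw [U]; simp [hi]
      rw [e]
      have h1 := ih i
      have h2 := ih (i + 1)
      rw [le_div_iff₀ hδ2] at h1 h2 ⊢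
      push_cast at h1 h2 ⊢
      nlinarith [mul_le_mul_of_nonneg_left h1 hq, mul_le_mul_of_nonneg_left h2 hp0]
    · exact htop (s + 1) i hi

/-- Q1 fails: for every `C` there are a chain on `n` states, states `x, y` and `t > n` with
`P_x(t ≤ τ(y) ≤ t + n) > C n / t`. -/
theorem result : ∀ C : ℝ, ∃ (n : ℕ) (P : Fin n → Fin n → ℝ), 1 ≤ n ∧ IsTransition P ∧
    ∃ (x y : Fin n) (t : ℕ), n < t ∧ C * (n : ℝ) / (t : ℝ) < windowProb P x y t (t + n) := by
  intro C
  obtain ⟨k, hk⟩ := exists_nat_gt (max 2 (4 * C))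
  have hk2 : (2 : ℝ) < k := lt_of_le_of_lt (le_max_left _ _) hk
  have hkC : 4 * C < k := lt_of_le_of_lt (le_max_right _ _) hk
  have hk2' : 2 < k := by exact_mod_cast hk2
  -- `n = 256 k²`, `M = n - 1`, `t = 128 k² (2k - 1)`, `p = 1/k`
  obtain ⟨M, hM⟩ : ∃ M, 256 * k ^ 2 = M + 1 :=
    ⟨256 * k ^ 2 - 1, by have : 0 < k ^ 2 := by positivity
                         omega⟩
  obtain ⟨j, hj⟩ : ∃ j, 2 * k = j + 1 := ⟨2 * k - 1, by omega⟩
  set t : ℕ := 128 * k ^ 2 * j with ht
  have hMR : (M : ℝ) = 256 * (k : ℝ) ^ 2 - 1 := by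
    have : ((256 * k ^ 2 : ℕ) : ℝ) = ((M + 1 : ℕ) : ℝ) := by rw [hM]
    push_cast at this
    linarith
  have hjR : (j : ℝ) = 2 * (k : ℝ) - 1 := by
    have : ((2 * k : ℕ) : ℝ) = ((j + 1 : ℕ) : ℝ) := by rw [hj]
    push_cast at this
    linarith
  have htR : (t : ℝ) = 128 * (k : ℝ) ^ 2 * (2 * k - 1) := by
    rw [ht]; push_cast; rw [hjR]
  have hk0 : (0 : ℝ) < k := by linarith
  have hp0 : (0 : ℝ) ≤ 1 / (k : ℝ) := by positivity
  have hp1 : 1 / (k : ℝ) ≤ 1 := by rw [div_le_one hk0]; linarith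
  have hjk : 3 ≤ j := by omega
  have hnt : M + 1 < t := by
    rw [← hM, ht]
    have : 0 < k ^ 2 := by positivity
    nlinarith
  refine ⟨M + 1, bP M (1 / k), by omega, ⟨?_, ?_⟩, 0, Fin.last M, t, hnt, ?_⟩
  · intro u v
    unfold bP
    have : 0 ≤ 1 - 1 / (k : ℝ) := by linarith
    split_ifs <;> positivity
  · intro u
    have := bP_sum M (1 / k) u (fun _ => 1)
    simp only [mul_one] at this
    rw [this]
    split_ifs <;> ring
  · rw [window_eq M _ _ _ _ (by omega) (by omega)]
    have hk2R : (0 : ℝ) < (k : ℝ) ^ 2 := by positivity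
    have hlow := U_lower M (1 / k) hp0 hp1 (128 * k) (256 * (k : ℝ) ^ 2 + 128 * k)
      (by positivity) (by rw [hMR]; linarith) (t + (M + 1)) 0
    have hup := U_upper M (1 / k) hp0 hp1 (127 * k) (256 * (k : ℝ) ^ 2 - 128 * k - 1 / k)
      (by positivity) (by rw [hMR]; linarith) (t - 1) 0
    have e1 : ((t + (M + 1) : ℕ) : ℝ) * (1 / (k : ℝ)) = 256 * (k : ℝ) ^ 2 + 128 * k := by
      push_cast
      rw [htR, hMR]
      field_simp
      ring
    have e2 : ((t - 1 : ℕ) : ℝ) * (1 / (k : ℝ)) = 256 * (k : ℝ) ^ 2 - 128 * k - 1 / k := by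
      rw [Nat.cast_sub (by omega), htR]
      push_cast
      field_simp
      ring
    rw [e1] at hlow
    rw [e2] at hup
    have hinv : 0 < 1 / (k : ℝ) := by positivity
    have hlow2 : 1 - U M (1 / (k : ℝ)) (t + (M + 1)) 0 ≤ 1 / 20 := by
      refine hlow.trans ?_
      rw [div_le_iff₀ (by positivity)]
      push_cast
      have h1 : (256 * (k : ℝ) ^ 2 + 128 * k) * (1 - 1 / k) ≤ 256 * (k : ℝ) ^ 2 + 128 * k := by
        nlinarith
      nlinarith
    have hup2 : U M (1 / (k : ℝ)) (t - 1) 0 ≤ 1 / 20 := by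
      refine hup.trans ?_
      rw [div_le_iff₀ (by positivity)]
      push_cast
      have h1 : (256 * (k : ℝ) ^ 2 - 128 * k - 1 / k) * (1 - 1 / k) ≤ 256 * (k : ℝ) ^ 2 := by
        have h2 : 0 ≤ 1 - 1 / (k : ℝ) := by linarith
        nlinarith
      nlinarith
    have hmain : C * ((M + 1 : ℕ) : ℝ) / (t : ℝ) < 9 / 10 := by
      have htpos : (0 : ℝ) < t := by rw [htR]; have : (0 : ℝ) < 2 * k - 1 := by linarith
                                     positivity
      rw [div_lt_iff₀ htpos]
      push_cast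
      rw [hMR, htR]
      have : C * (256 * (k : ℝ) ^ 2 - 1 + 1) = (256 * C) * (k : ℝ) ^ 2 := by ring
      rw [this]
      have h3 : 9 / 10 * (128 * (k : ℝ) ^ 2 * (2 * k - 1))
          = (9 / 10 * 128 * (2 * k - 1)) * (k : ℝ) ^ 2 := by ring
      rw [h3]
      refine mul_lt_mul_of_pos_right ?_ hk2R
      linarith
    have hz : ((0 : Fin (M + 1)) : ℕ) = 0 := rfl
    rw [hz]
    linarith

end Pool.Agent.Results.MP_eadfc1_pr.WindowBoundFails
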